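import Mathlib
import Pool.Agent.V11175.DL4

/-!
# The determinant lower bound is at most a constant times the hereditary partial vector discrepancy

There is an absolute constant `C` with `detLB A ≤ C * herpvdisc A` for all real matrices `A`.

Proof.  Let `B` be a `k × k` submatrix with `|det B| = D ^ k`, `D = detLB A`, and let `lam` be feasible for
all sets of columns.  The positive semidefinite `k × k` matrices `X` with diagonal at most one and
`(B X Bᵀ)_ii ≤ lam²` form a compact convex set `K` which contains the Gram matrices of all feasible vector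
families.  Let `X` maximise `det (ε + X)` over `K`.  Then `tr ((ε + X)⁻¹ Z) ≤ k` for all `Z` in `K`.  If `X` had
fewer than `k / 16` eigenvalues above a suitable constant, a restricted invertibility theorem (which we
deduce from the two-paving theorem of the starting files) would give a set `T` of at least `k / 4` columns on
which the projection to the small eigenvectors is bounded below, and the Gram matrix `Z` of a feasible family
for `T` would contradict this inequality.  So at least `k / 16` eigenvalues of `X` are large.  On their span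
`B` has small volume by the inequality between the arithmetic and the geometric mean, and the volume of `B` on
the complement is bounded by its minors (Cauchy-Binet); this gives `D ^ j ≤ 4 ^ k (c lam) ^ j`, `j ≥ k / 16`.
-/

set_option autoImplicit false

namespace Pool.Agent.Results.MP_c6e1d2_co.DeterminantBound

open Finset Matrix Filter Topology

/-- the determinant lower bound: the largest `|det A_{S,T}| ^ (1 / k)` over all square submatrices -/
noncomputable def detLB {m n : ℕ} (A : Matrix (Fin m) (Fin n) ℝ) : ℝ :=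
  sSup {x : ℝ | ∃ (k : ℕ) (f : Fin k → Fin m) (g : Fin k → Fin n), 1 ≤ k ∧
    Function.Injective f ∧ Function.Injective g ∧ x = |(A.submatrix f g).det| ^ ((1 : ℝ) / k)}

/-- `(A, S, lam)` is feasible -/
def Feasible {m n : ℕ} (A : Matrix (Fin m) (Fin n) ℝ) (S : Finset (Fin n)) (lam : ℝ) : Prop :=
  ∃ (d : ℕ) (v : Fin n → EuclideanSpace ℝ (Fin d)),
    (∀ i, ‖∑ j ∈ S, A i j • v j‖ ^ 2 ≤ lam ^ 2) ∧ (S.card : ℝ) / 2 ≤ ∑ j, ‖v j‖ ^ 2 ∧
    (∀ j ∈ S, ‖v j‖ ^ 2 ≤ 1) ∧ ∀ j, j ∉ S → v j = 0

/-- the hereditary partial vector discrepancy -/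
noncomputable def herpvdisc {m n : ℕ} (A : Matrix (Fin m) (Fin n) ℝ) : ℝ :=
  sInf {lam : ℝ | 0 ≤ lam ∧ ∀ S : Finset (Fin n), Feasible A S lam}

variable {m n : ℕ}

lemma Feasible.mono {A : Matrix (Fin m) (Fin n) ℝ} {S : Finset (Fin n)} {a b : ℝ} (ha : 0 ≤ a)
    (hab : a ≤ b) (h : Feasible A S a) : Feasible A S b := by
  obtain ⟨d, v, h1, h2, h3, h4⟩ := h
  exact ⟨d, v, fun i => (h1 i).trans (pow_le_pow_left₀ ha hab 2), h2, h3, h4⟩

lemma det_eq_zero_of_not_inj_left {k : ℕ} (A : Matrix (Fin m) (Fin n) ℝ) (f : Fin k → Fin m)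
    (g : Fin k → Fin n) (hf : ¬ Function.Injective f) : (A.submatrix f g).det = 0 := by
  unfold Function.Injective at hf
  push Not at hf
  obtain ⟨a, b, hab, hne⟩ := hf
  refine Matrix.det_zero_of_row_eq hne ?_
  ext j
  simp [Matrix.submatrix_apply, hab]

lemma det_eq_zero_of_not_inj_right {k : ℕ} (A : Matrix (Fin m) (Fin n) ℝ) (f : Fin k → Fin m)
    (g : Fin k → Fin n) (hg : ¬ Function.Injective g) : (A.submatrix f g).det = 0 := by
  unfold Function.Injective at hg
  push Not at hg
  obtain ⟨a, b, hab, hne⟩ := hg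
  refine Matrix.det_zero_of_column_eq hne ?_
  intro j
  simp [Matrix.submatrix_apply, hab]

/-- the constant -/
def C0 : ℝ := 4 ^ 16 * 95

lemma C0_pos : 0 < C0 := by unfold C0; norm_num

lemma main_pos (A : Matrix (Fin m) (Fin n) ℝ) (lam : ℝ) (hlam : 0 < lam)
    (hA : ∀ S : Finset (Fin n), Feasible A S lam) (k : ℕ) (f : Fin k → Fin m) (g : Fin k → Fin n) :
    |(A.submatrix f g).det| ≤ (C0 * lam) ^ k := by
  classical
  rcases Nat.eq_zero_or_pos k with rfl | hk
  · simp
  -- the index set of all square submatrices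
  let ι := Σ r : Fin m, (Fin (r.1 + 1) → Fin m) × (Fin (r.1 + 1) → Fin n)
  have hm : 0 < m := by
    rcases Nat.eq_zero_or_pos m with rfl | h
    · exact (f ⟨0, hk⟩).elim0
    · exact h
  have hne : Nonempty ι := ⟨⟨⟨0, hm⟩, fun _ => f ⟨0, hk⟩, fun _ => g ⟨0, hk⟩⟩⟩
  obtain ⟨⟨r0, f0, g0⟩, hmax⟩ := Finite.exists_max
    (fun x : ι => |(A.submatrix x.2.1 x.2.2).det| ^ ((1 : ℝ) / ((x.1.1 + 1 : ℕ) : ℝ)))
  simp only at hmax
  set D : ℝ := |(A.submatrix f0 g0).det| ^ ((1 : ℝ) / ((r0.1 + 1 : ℕ) : ℝ)) with hD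
  have hD0 : 0 ≤ D := Real.rpow_nonneg (abs_nonneg _) _
  have hall : ∀ (r : ℕ) (f' : Fin r → Fin m) (g' : Fin r → Fin n),
      |(A.submatrix f' g').det| ≤ D ^ r := by
    intro r f' g'
    rcases Nat.eq_zero_or_pos r with rfl | hr
    · simp
    by_cases hf : Function.Injective f'
    · have hrm : r ≤ m := by
        have := Fintype.card_le_of_injective f' hf
        simpa using this
      obtain ⟨s, rfl⟩ : ∃ s, r = s + 1 := ⟨r - 1, by omega⟩
      have h1 := hmax ⟨⟨s, by omega⟩, f', g'⟩
      simp only at h1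
      have h2 := pow_le_pow_left₀ (Real.rpow_nonneg (abs_nonneg _) _) h1 (s + 1)
      rw [← Real.rpow_natCast, ← Real.rpow_mul (abs_nonneg _), one_div,
        inv_mul_cancel₀ (by positivity), Real.rpow_one] at h2
      exact h2
    · rw [det_eq_zero_of_not_inj_left A f' g' hf, abs_zero]
      positivity
  have hDle : D ≤ C0 * lam := by
    rcases hD0.eq_or_lt with h0 | hpos
    · rw [← h0]; exact (mul_pos C0_pos hlam).le
    have hdet : |(A.submatrix f0 g0).det| = D ^ (r0.1 + 1) := by
      rw [hD, ← Real.rpow_natCast, ← Real.rpow_mul (abs_nonneg _), one_div,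
        inv_mul_cancel₀ (by positivity), Real.rpow_one]
    have hdet0 : (A.submatrix f0 g0).det ≠ 0 := by
      intro h
      rw [h, abs_zero] at hdet
      exact (pow_pos hpos _).ne hdet
    have hg0 : Function.Injective g0 := by
      by_contra h
      exact hdet0 (det_eq_zero_of_not_inj_right A f0 g0 h)
    refine Pool.Agent.V11175.DL.core (Nat.succ_pos _) (A.submatrix f0 g0) lam D hlam hpos hdet
      (fun r f' g' => ?_) (fun T => ?_)
    · rw [Matrix.submatrix_submatrix]
      exact hall r _ _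
    · obtain ⟨d, v, h1, h2, h3, h4⟩ := hA (T.image g0)
      have hv0 : ∀ a, a ∉ T → v (g0 a) = 0 := by
        intro a ha
        apply h4
        intro hmem
        rw [Finset.mem_image] at hmem
        obtain ⟨b, hb, hab⟩ := hmem
        exact ha (hg0 hab ▸ hb)
      refine ⟨d, fun a => v (g0 a), fun i => ?_, ?_, fun a => ?_, hv0⟩
      · have e : ∑ a, (A.submatrix f0 g0) i a • v (g0 a) = ∑ j ∈ T.image g0, A (f0 i) j • v j := by
          rw [Finset.sum_image (fun a _ b _ h => hg0 h)]
          symm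
          apply Finset.sum_subset (Finset.subset_univ _)
          intro a _ ha
          rw [hv0 a ha, smul_zero]
        rw [e]; exact h1 (f0 i)
      · have e1 : (T.image g0).card = T.card := Finset.card_image_of_injective _ hg0
        have e2 : ∑ j, ‖v j‖ ^ 2 = ∑ a, ‖v (g0 a)‖ ^ 2 := by
          have e3 : ∑ j, ‖v j‖ ^ 2 = ∑ j ∈ T.image g0, ‖v j‖ ^ 2 := by
            symm
            apply Finset.sum_subset (Finset.subset_univ _)
            intro j _ hj
            rw [h4 j hj]; simp
          rw [e3, Finset.sum_image (fun a _ b _ h => hg0 h)]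
          apply Finset.sum_subset (Finset.subset_univ _)
          intro a _ ha
          rw [hv0 a ha]; simp
        rw [e1, e2] at h2
        exact h2
      · by_cases ha : a ∈ T
        · exact h3 _ (Finset.mem_image_of_mem _ ha)
        · show ‖v (g0 a)‖ ^ 2 ≤ 1
          rw [hv0 a ha]; simp
  exact (hall k f g).trans (pow_le_pow_left₀ hD0 hDle k)

lemma main_le (A : Matrix (Fin m) (Fin n) ℝ) (lam : ℝ) (hlam : 0 ≤ lam)
    (hA : ∀ S : Finset (Fin n), Feasible A S lam) (k : ℕ) (f : Fin k → Fin m) (g : Fin k → Fin n) :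
    |(A.submatrix f g).det| ≤ (C0 * lam) ^ k := by
  have hc : Continuous fun e : ℝ => (C0 * (lam + e)) ^ k := by fun_prop
  have ht : Tendsto (fun e : ℝ => (C0 * (lam + e)) ^ k) (𝓝[>] 0) (𝓝 ((C0 * (lam + 0)) ^ k)) :=
    hc.continuousAt.tendsto.mono_left nhdsWithin_le_nhds
  rw [add_zero] at ht
  refine ge_of_tendsto ht ?_
  filter_upwards [self_mem_nhdsWithin] with e he
  have he' : (0 : ℝ) < e := he
  exact main_pos A (lam + e) (by linarith) (fun S => (hA S).mono hlam (by linarith)) k f g

lemma feasible_nonempty (A : Matrix (Fin m) (Fin n) ℝ) :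
    ∃ lam : ℝ, 0 ≤ lam ∧ ∀ S : Finset (Fin n), Feasible A S lam := by
  classical
  refine ⟨∑ i, ∑ j, |A i j|, Finset.sum_nonneg fun i _ => Finset.sum_nonneg fun j _ => abs_nonneg _, ?_⟩
  intro S
  refine ⟨1, fun j => if j ∈ S then EuclideanSpace.single 0 1 else 0, fun i => ?_, ?_, ?_, ?_⟩
  · have h1 : ‖∑ j ∈ S, A i j • (if j ∈ S then (EuclideanSpace.single (0 : Fin 1) (1 : ℝ)) else 0)‖ ≤
        ∑ i, ∑ j, |A i j| := by
      refine (norm_sum_le _ _).trans ?_
      refine (Finset.sum_le_sum (g := fun j => |A i j|) ?_).trans ?_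
      · intro j hj
        rw [if_pos hj, norm_smul]
        simp
      · refine (Finset.sum_le_sum_of_subset_of_nonneg (Finset.subset_univ _)
          (fun j _ _ => abs_nonneg _)).trans ?_
        exact Finset.single_le_sum (f := fun i => ∑ j, |A i j|)
          (fun i _ => Finset.sum_nonneg fun j _ => abs_nonneg _) (Finset.mem_univ i)
    exact pow_le_pow_left₀ (norm_nonneg _) h1 2
  · have h1 : ∀ j, ‖(if j ∈ S then (EuclideanSpace.single (0 : Fin 1) (1 : ℝ)) else 0)‖ ^ 2 =
        if j ∈ S then (1 : ℝ) else 0 := by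
      intro j
      split_ifs <;> simp
    rw [Finset.sum_congr rfl (fun j _ => h1 j)]
    simp only [Finset.sum_ite_mem, Finset.univ_inter, Finset.sum_const, nsmul_eq_mul, mul_one]
    have : (0 : ℝ) ≤ S.card := by positivity
    linarith
  · intro j hj
    simp [hj]
  · intro j hj
    simp [hj]

lemma bdd (A : Matrix (Fin m) (Fin n) ℝ) {lam : ℝ} (hlam : 0 ≤ lam)
    (hA : ∀ S : Finset (Fin n), Feasible A S lam) {k : ℕ} (hk : 1 ≤ k) (f : Fin k → Fin m)
    (g : Fin k → Fin n) : |(A.submatrix f g).det| ^ ((1 : ℝ) / k) ≤ C0 * lam := by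
  have h1 := main_le A lam hlam hA k f g
  have hk' : (k : ℝ) ≠ 0 := by positivity
  have h0 : 0 ≤ C0 * lam := mul_nonneg C0_pos.le hlam
  calc _ ≤ ((C0 * lam) ^ k) ^ ((1 : ℝ) / k) :=
        Real.rpow_le_rpow (abs_nonneg _) h1 (by positivity)
    _ = C0 * lam := by
        rw [← Real.rpow_natCast, ← Real.rpow_mul h0, mul_one_div_cancel hk', Real.rpow_one]

/-- **The determinant lower bound and the hereditary partial vector discrepancy.**  There is an absolute
constant `C > 0` with `detLB A ≤ C * herpvdisc A` for every real matrix `A`; the set over which `detLB` takes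
the supremum is bounded, and the set over which `herpvdisc` takes the infimum is nonempty.  Moreover, whenever
`lam ≥ 0` is feasible for all sets of columns, every `k × k` minor of `A` is at most `(C * lam) ^ k`. -/
theorem result : ∃ C : ℝ, 0 < C ∧ ∀ (m n : ℕ) (A : Matrix (Fin m) (Fin n) ℝ),
    detLB A ≤ C * herpvdisc A ∧
    BddAbove {x : ℝ | ∃ (k : ℕ) (f : Fin k → Fin m) (g : Fin k → Fin n), 1 ≤ k ∧
      Function.Injective f ∧ Function.Injective g ∧ x = |(A.submatrix f g).det| ^ ((1 : ℝ) / k)} ∧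
    (∃ lam : ℝ, 0 ≤ lam ∧ ∀ S : Finset (Fin n), Feasible A S lam) ∧
    ∀ lam : ℝ, 0 ≤ lam → (∀ S : Finset (Fin n), Feasible A S lam) →
      ∀ (k : ℕ) (f : Fin k → Fin m) (g : Fin k → Fin n),
        |(A.submatrix f g).det| ≤ (C * lam) ^ k := by
  refine ⟨C0, C0_pos, fun m n A => ⟨?_, ?_, feasible_nonempty A, fun lam hlam hA k f g =>
    main_le A lam hlam hA k f g⟩⟩
  · unfold detLB
    apply Real.sSup_le
    · rintro x ⟨k, f, g, hk, -, -, rfl⟩
      have h1 : |(A.submatrix f g).det| ^ ((1 : ℝ) / k) / C0 ≤ herpvdisc A := by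
        unfold herpvdisc
        obtain ⟨l0, hl0⟩ := feasible_nonempty A
        refine le_csInf ⟨l0, hl0⟩ ?_
        rintro lam ⟨hlam, hA⟩
        rw [div_le_iff₀ C0_pos, mul_comm]
        exact bdd A hlam hA hk f g
      rw [div_le_iff₀ C0_pos] at h1
      linarith
    · apply mul_nonneg C0_pos.le
      unfold herpvdisc
      exact Real.sInf_nonneg (fun x hx => hx.1)
  · obtain ⟨l0, hl0, hA⟩ := feasible_nonempty A
    refine ⟨C0 * l0, ?_⟩
    rintro x ⟨k, f, g, hk, -, -, rfl⟩
    exact bdd A hl0 hA hk f g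

end Pool.Agent.Results.MP_c6e1d2_co.DeterminantBound
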